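import Pool.Agent.W2helper92.CS.Stm
import Pool.Agent.TH330.CS.Count

/-! Project GC, piece TH. -/

set_option autoImplicit false

namespace Pool.Agent.W2helper19.CS

open Finset Pool.Agent.W2helper92.CS

theorem p_th : P_TH := by
  intro hU c
  classical
  have h1 := hU (3 * c) c le_rfl
  have h2 := Pool.TH330.CS.NM (3 * c) (3 * c) le_rfl
  have h3 : ((Sq (3 * c)).filter (fun s : ℤ × ℤ => |s.1 - s.2| ≤ 3 * (c : ℤ) ∧
      |2 * s.1 + s.2| ≤ 3 * (c : ℤ) ∧ |s.1 + 2 * s.2| ≤ 3 * (c : ℤ))).card =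
      ((Sq (3 * c)).filter (fun s : ℤ × ℤ => |s.1 - s.2| ≤ 3 * (c : ℤ) ∧ (3 : ℤ) ∣ s.1 + s.2)).card := by
    refine Finset.card_bij (fun s _ => (s.1 - s.2, 2 * s.1 + s.2)) ?_ ?_ ?_
    · rintro ⟨x, y⟩ hs
      simp only [Sq, mem_filter, mem_product, mem_Icc, abs_le] at hs ⊢
      push_cast at hs ⊢
      refine ⟨⟨by omega, by omega⟩, by omega, ⟨x, by ring⟩⟩
    · rintro ⟨x, y⟩ _ ⟨x', y'⟩ _ h
      simp only [Prod.mk.injEq] at h ⊢
      omega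
    · rintro ⟨u, w⟩ hs
      simp only [Sq, mem_filter, mem_product, mem_Icc, abs_le] at hs
      push_cast at hs
      obtain ⟨⟨h4, h5⟩, h6, k, hk⟩ := hs
      refine ⟨(k, k - u), ?_, ?_⟩
      · simp only [Sq, mem_filter, mem_product, mem_Icc, abs_le]
        push_cast
        refine ⟨⟨by omega, by omega⟩, by omega, by omega, by omega⟩
      · simp only [Prod.mk.injEq]
        omega
  have h4 : ((Sq (3 * c)).filter (fun s : ℤ × ℤ => |s.1 - s.2| ≤ 3 * (c : ℤ) ∧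
        (3 : ℤ) ∣ s.1 + s.2)).card +
      ((Sq (3 * c)).filter (fun s : ℤ × ℤ => |s.1 - s.2| ≤ 3 * (c : ℤ) ∧
        ¬ (3 : ℤ) ∣ s.1 + s.2)).card =
      ((Pool.TH330.CS.Lat (3 * c)).filter (fun s => |s.1 - s.2| ≤ ((3 * c : ℕ) : ℤ))).card := by
    rw [← Finset.filter_filter, ← Finset.filter_filter,
      Finset.card_filter_add_card_filter_not]
    have e : ((3 * c : ℕ) : ℤ) = 3 * (c : ℤ) := by push_cast; ring
    rw [e]
    rfl
  have h5 : (((Pool.TH330.CS.Lat (3 * c)).filter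
      (fun s => |s.1 - s.2| ≤ ((3 * c : ℕ) : ℤ))).card : ℤ) = 27 * c ^ 2 + 9 * c + 1 := by
    rw [h2]
    push_cast
    ring
  rw [h3] at h1
  have h6 : ((((Sq (3 * c)).filter (fun s : ℤ × ℤ => |s.1 - s.2| ≤ 3 * (c : ℤ) ∧
        (3 : ℤ) ∣ s.1 + s.2)).card : ℕ) : ℤ) +
      ((((Sq (3 * c)).filter (fun s : ℤ × ℤ => |s.1 - s.2| ≤ 3 * (c : ℤ) ∧
        ¬ (3 : ℤ) ∣ s.1 + s.2)).card : ℕ) : ℤ) = 27 * c ^ 2 + 9 * c + 1 := by
    rw [← h5, ← h4]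
    push_cast
    ring
  linarith

end Pool.Agent.W2helper19.CS
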